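import Pool.Agent.H65.RC.Jmp

/-!
# Large increments at every scale
-/

open Finset PowerSeries Filter Topology
open Pool.Agent.H99.Inc Pool.Agent.H99.Jump Pool.Agent.H65.CP

namespace Pool.Agent.H65.RC

/-- The scales. -/
noncomputable def ys (i : ℕ) : ℝ := Real.exp (-((2 : ℝ) ^ i)⁻¹)

theorem ys_pos (i : ℕ) : 0 < ys i := Real.exp_pos _

theorem ys_lt_one (i : ℕ) : ys i < 1 := by
  rw [ys, Real.exp_lt_one_iff]
  have : (0 : ℝ) < ((2 : ℝ) ^ i)⁻¹ := by positivity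
  linarith

theorem ys_sq (i : ℕ) : ys (i + 1) ^ 2 = ys i := by
  rw [ys, ys, ← Real.exp_nat_mul]
  congr 1
  rw [pow_succ, mul_inv]
  push_cast
  ring

theorem ys_pow (i n : ℕ) : ys i ^ n = Real.exp (-((n : ℝ) / 2 ^ i)) := by
  rw [ys, ← Real.exp_nat_mul]
  congr 1
  rw [div_eq_mul_inv]
  ring

theorem one_sub_ys_le (i : ℕ) : 1 - ys i ≤ ((2 : ℝ) ^ i)⁻¹ := by
  have := Real.add_one_le_exp (-((2 : ℝ) ^ i)⁻¹)
  rw [ys]
  linarith

theorem le_one_sub_ys (i : ℕ) : (2 * (2 : ℝ) ^ i)⁻¹ ≤ 1 - ys i := by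
  obtain ⟨t, ht⟩ : ∃ t : ℝ, t = ((2 : ℝ) ^ i)⁻¹ := ⟨_, rfl⟩
  have ht0 : 0 < t := by rw [ht]; positivity
  have ht1 : t ≤ 1 := by
    rw [ht]
    exact inv_le_one_of_one_le₀ (one_le_pow₀ (by norm_num))
  have h1 := Real.add_one_le_exp t
  have h2 : ys i * Real.exp t = 1 := by
    rw [ys, ← ht, ← Real.exp_add, neg_add_cancel, Real.exp_zero]
  have h3 : ys i * (1 + t) ≤ 1 := by
    rw [← h2]
    exact mul_le_mul_of_nonneg_left (by linarith) (ys_pos i).le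
  have h4 : ys i ≤ 1 - t / 2 := by
    have h5 : 1 ≤ (1 - t / 2) * (1 + t) := by nlinarith
    exact le_of_mul_le_mul_right (h3.trans h5) (by linarith)
  rw [mul_inv, ← ht]
  linarith

theorem gen_ys_le (A : Set ℕ) (i : ℕ) : gen A (ys i) ≤ 2 * 2 ^ i := by
  refine (gen_le A (ys_pos i).le (ys_lt_one i)).trans ?_
  have h1 := le_one_sub_ys i
  rw [one_div]
  have h2 := inv_anti₀ (by positivity) h1
  rwa [inv_inv] at h2

theorem half_le_ys_pow {i n : ℕ} (h : 2 * (n : ℝ) ≤ 2 ^ i) : 1 / 2 ≤ ys i ^ n := by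
  rw [ys_pow]
  have h1 := Real.add_one_le_exp (-((n : ℝ) / 2 ^ i))
  have h2 : (n : ℝ) / 2 ^ i ≤ 1 / 2 := by
    rw [div_le_div_iff₀ (by positivity) (by norm_num)]
    linarith
  linarith

theorem gen_ge {A : Set ℕ} {a : ℕ} (ha : a ∈ A) {y : ℝ} (h0 : 0 ≤ y) (h1 : y < 1) :
    y ^ a ≤ gen A y := by
  have h2 := (summable_ind A h0 h1).le_tsum a
    (fun n _ => mul_nonneg (ind_nonneg A n) (pow_nonneg h0 n))
  have h3 : ind A a = 1 := by
    unfold ind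
    rw [if_pos ha]
  rw [h3, one_mul] at h2
  exact h2

/-- A scale of doubling. -/
theorem exists_doubling (A : Set ℕ) {B : ℝ} (hB : 0 < B) {i₀ l : ℕ}
    (h : 2 * 2 ^ (i₀ + l) < B ^ l * gen A (ys i₀)) :
    ∃ i, i₀ ≤ i ∧ i < i₀ + l ∧ gen A (ys (i + 1)) ≤ B * gen A (ys i) := by
  by_contra hcon
  push Not at hcon
  have h1 : ∀ m ≤ l, B ^ m * gen A (ys i₀) ≤ gen A (ys (i₀ + m)) := by
    intro m
    induction m with
    | zero => intro _; simp
    | succ m ih =>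
      intro hm
      have h2 := ih (by omega)
      have h3 := hcon (i₀ + m) (by omega) (by omega)
      calc B ^ (m + 1) * gen A (ys i₀) = B * (B ^ m * gen A (ys i₀)) := by ring
        _ ≤ B * gen A (ys (i₀ + m)) := mul_le_mul_of_nonneg_left h2 hB.le
        _ ≤ gen A (ys (i₀ + (m + 1))) := h3.le
  have h2 := h1 l le_rfl
  have h3 := gen_ys_le A (i₀ + l)
  linarith

theorem eventually_log_le {τ : ℝ} (hτ : 0 < τ) :
    ∀ᶠ X : ℝ in atTop, 1 + Real.log (2 * X) ≤ X ^ τ := by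
  have h1 : ∀ᶠ X : ℝ in atTop, Real.log X ≤ X ^ (τ / 2) := by
    have h2 := (isLittleO_log_rpow_atTop (half_pos hτ)).bound (by norm_num : (0 : ℝ) < 1)
    filter_upwards [h2, eventually_ge_atTop (1 : ℝ)] with X hX hX1
    have h3 : 0 ≤ Real.log X := Real.log_nonneg hX1
    rw [Real.norm_of_nonneg h3, one_mul, Real.norm_of_nonneg (by positivity)] at hX
    exact hX
  have h2 := (tendsto_rpow_atTop (half_pos hτ)).eventually_ge_atTop 3
  filter_upwards [h1, h2, eventually_ge_atTop (1 : ℝ)] with X hX hX2 hX1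
  rw [Real.log_mul two_ne_zero (by linarith)]
  have h4 := Real.log_two_lt_d9
  have h5 : X ^ τ = X ^ (τ / 2) * X ^ (τ / 2) := by
    rw [← Real.rpow_add (by linarith)]
    congr 1
    ring
  rw [h5]
  have h6 : 3 * X ^ (τ / 2) ≤ X ^ (τ / 2) * X ^ (τ / 2) :=
    mul_le_mul_of_nonneg_right hX2 (by positivity)
  linarith

/-- Large increments at every scale. -/
theorem jumps {A : Set ℕ} (hA : A.Infinite) {k : ℕ} (hk : 3 ≤ k)
    (hmono : ∃ n₀, ∀ n ≥ n₀, R1 A k n ≤ R1 A k (n + 1)) {τ : ℝ} (hτ : 0 < τ) (hτ1 : τ < 1 / 3) :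
    ∀ᶠ X : ℝ in atTop, ∃ n : ℕ,
      X ^ (1 - 4 * τ) ≤ |inc A k n| * Real.exp (-((n : ℝ) / X ^ (1 - 2 * τ))) := by
  obtain ⟨c, n₂, hc, hbig⟩ := exists_big hA hk hmono
  obtain ⟨a, ha⟩ := hA.nonempty
  obtain ⟨B, hB⟩ : ∃ B : ℝ, B = 2 ^ (3 / τ) := ⟨_, rfl⟩
  have hB0 : 0 < B := by rw [hB]; positivity
  have e1 : ∀ᶠ X : ℝ in atTop, 4 * (n₂ + a + 1 : ℝ) ≤ X ^ (1 - 3 * τ) :=
    (tendsto_rpow_atTop (by linarith)).eventually_ge_atTop _
  have e2 : ∀ᶠ X : ℝ in atTop, 4 * B + 1 ≤ X ^ (2 : ℝ) :=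
    (tendsto_rpow_atTop (by norm_num)).eventually_ge_atTop _
  have e3 := eventually_log_le (τ := τ / 4) (by positivity)
  have e4 : ∀ᶠ X : ℝ in atTop, B ^ k / c ≤ X ^ (τ / 2) :=
    (tendsto_rpow_atTop (by linarith)).eventually_ge_atTop _
  filter_upwards [e1, e2, e3, e4, eventually_ge_atTop (1 : ℝ)] with X h1 h2 h3 h4 hX1
  have hX0 : 0 < X := by linarith
  obtain ⟨w, hw⟩ : ∃ w : ℝ, w = Real.logb 2 X := ⟨_, rfl⟩
  have hw0 : 0 ≤ w := by rw [hw]; exact Real.logb_nonneg (by norm_num) hX1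
  have hwX : (2 : ℝ) ^ w = X := by
    rw [hw]
    exact Real.rpow_logb (by norm_num) (by norm_num) hX0
  have hpw : ∀ r : ℝ, (2 : ℝ) ^ (r * w) = X ^ r := by
    intro r
    rw [mul_comm, Real.rpow_mul (by norm_num), hwX]
  obtain ⟨i₀, hi₀⟩ : ∃ i₀ : ℕ, i₀ = ⌊(1 - 3 * τ) * w⌋₊ := ⟨_, rfl⟩
  obtain ⟨l, hl⟩ : ∃ l : ℕ, l = ⌊τ * w⌋₊ := ⟨_, rfl⟩
  have g1 : (2 : ℝ) ^ i₀ ≤ X ^ (1 - 3 * τ) := by
    rw [← hpw, ← Real.rpow_natCast]
    refine Real.rpow_le_rpow_of_exponent_le (by norm_num) ?_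
    rw [hi₀]
    exact Nat.floor_le (mul_nonneg (by linarith) hw0)
  have g2 : X ^ (1 - 3 * τ) ≤ 2 * 2 ^ i₀ := by
    rw [← hpw, ← pow_succ', ← Real.rpow_natCast]
    refine Real.rpow_le_rpow_of_exponent_le (by norm_num) ?_
    rw [hi₀]
    push_cast
    exact (Nat.lt_floor_add_one _).le
  have g3 : (2 : ℝ) ^ l ≤ X ^ τ := by
    rw [← hpw, ← Real.rpow_natCast]
    refine Real.rpow_le_rpow_of_exponent_le (by norm_num) ?_
    rw [hl]
    exact Nat.floor_le (mul_nonneg hτ.le hw0)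
  have g4 : X ^ τ ≤ 2 * 2 ^ l := by
    rw [← hpw, ← pow_succ', ← Real.rpow_natCast]
    refine Real.rpow_le_rpow_of_exponent_le (by norm_num) ?_
    rw [hl]
    push_cast
    exact (Nat.lt_floor_add_one _).le
  have g5 : (2 : ℝ) ^ (i₀ + l) ≤ X ^ (1 - 2 * τ) := by
    rw [pow_add]
    refine (mul_le_mul g1 g3 (by positivity) (by positivity)).trans (le_of_eq ?_)
    rw [← Real.rpow_add hX0]
    congr 1
    ring
  -- the product of the ratios
  have g6 : X ^ (3 : ℝ) ≤ B * B ^ l := by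
    have h5 : X ^ (3 : ℝ) = (X ^ τ) ^ (3 / τ) := by
      rw [← Real.rpow_mul hX0.le]
      congr 1
      field_simp
    have h6 : B * B ^ l = (2 * 2 ^ l) ^ (3 / τ) := by
      rw [Real.mul_rpow (by norm_num) (by positivity), hB]
      congr 1
      rw [← Real.rpow_natCast, ← Real.rpow_natCast, ← Real.rpow_mul (by norm_num),
        ← Real.rpow_mul (by norm_num), mul_comm]
    rw [h5, h6]
    exact Real.rpow_le_rpow (by positivity) g4 (by positivity)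
  have hgen : 1 / 2 ≤ gen A (ys i₀) := by
    refine le_trans ?_ (gen_ge ha (ys_pos i₀).le (ys_lt_one i₀))
    refine half_le_ys_pow ?_
    have : (0 : ℝ) ≤ n₂ := Nat.cast_nonneg _
    linarith
  have hdoub : 2 * 2 ^ (i₀ + l) < B ^ l * gen A (ys i₀) := by
    have h5 : X ^ (3 : ℝ) = X ^ (2 : ℝ) * X := by
      rw [show (3 : ℝ) = 2 + 1 by norm_num, Real.rpow_add hX0, Real.rpow_one]
    have h6 : X ^ (1 - 2 * τ) ≤ X := by
      calc X ^ (1 - 2 * τ) ≤ X ^ (1 : ℝ) := Real.rpow_le_rpow_of_exponent_le hX1 (by linarith)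
        _ = X := Real.rpow_one X
    have h7 : B * (2 * 2 ^ (i₀ + l)) < B * (B ^ l * gen A (ys i₀)) := by
      calc B * (2 * 2 ^ (i₀ + l)) ≤ B * (2 * X) :=
            mul_le_mul_of_nonneg_left (by linarith) hB0.le
        _ < (4 * B + 1) * X / 2 := by nlinarith
        _ ≤ X ^ (2 : ℝ) * X / 2 := by
            have := mul_le_mul_of_nonneg_right h2 hX0.le
            linarith
        _ = X ^ (3 : ℝ) * (1 / 2) := by rw [h5]; ring
        _ ≤ (B * B ^ l) * gen A (ys i₀) :=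
            mul_le_mul g6 hgen (by norm_num) (by positivity)
        _ = B * (B ^ l * gen A (ys i₀)) := by ring
    exact lt_of_mul_lt_mul_left h7 hB0.le
  obtain ⟨i, hi0, hil, hiB⟩ := exists_doubling A hB0 hdoub
  have q1 : (2 : ℝ) ^ i₀ ≤ 2 ^ i := pow_le_pow_right₀ (by norm_num) hi0
  have q2 : (2 : ℝ) ^ (i + 1) ≤ X ^ (1 - 2 * τ) :=
    (pow_le_pow_right₀ (by norm_num) (by omega)).trans g5
  have q3 : X ^ (1 - 3 * τ) ≤ 2 ^ (i + 1) := by
    rw [pow_succ]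
    linarith
  have hn₂0 : (0 : ℝ) ≤ n₂ := Nat.cast_nonneg _
  have ha0 : (0 : ℝ) ≤ a := Nat.cast_nonneg _
  have q4 : 1 / 2 ≤ ys i := by
    have h5 := half_le_ys_pow (i := i) (n := 1) (by push_cast; linarith)
    rwa [pow_one] at h5
  obtain ⟨n, hn⟩ := hbig (ys (i + 1)) (ys_pos _).le (ys_lt_one _) (by rw [ys_sq]; exact q4)
    (half_le_ys_pow (by linarith)) B hB0 (by rw [ys_sq]; exact hiB)
    (by
      rw [ys_sq]
      refine lt_of_lt_of_le ?_ (gen_ge ha (ys_pos i).le (ys_lt_one i))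
      exact pow_pos (ys_pos i) a)
  refine ⟨n, ?_⟩
  rw [ys_sq] at hn
  have r1 : ys (i + 1) ^ n ≤ Real.exp (-((n : ℝ) / X ^ (1 - 2 * τ))) := by
    rw [ys_pow, Real.exp_le_exp, neg_le_neg_iff]
    exact div_le_div_of_nonneg_left (Nat.cast_nonneg _) (by positivity) q2
  refine le_trans ?_ (hn.trans (mul_le_mul_of_nonneg_left r1 (abs_nonneg _)))
  -- the size of the bound
  have r2 : 0 < 1 - ys (i + 1) := by have := ys_lt_one (i + 1); linarith
  have r3 : 1 - ys (i + 1) ≤ (X ^ (1 - 3 * τ))⁻¹ :=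
    (one_sub_ys_le (i + 1)).trans (inv_anti₀ (by positivity) q3)
  have r4 : 1 / (1 - ys i) ≤ 2 * X := by
    have h5 := inv_anti₀ (by positivity) (le_one_sub_ys i)
    rw [inv_inv] at h5
    rw [one_div]
    refine h5.trans ?_
    have h6 : (2 : ℝ) ^ i ≤ 2 ^ (i + 1) := pow_le_pow_right₀ (by norm_num) (by omega)
    have h7 : X ^ (1 - 2 * τ) ≤ X := by
      calc X ^ (1 - 2 * τ) ≤ X ^ (1 : ℝ) := Real.rpow_le_rpow_of_exponent_le hX1 (by linarith)
        _ = X := Real.rpow_one X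
    linarith
  have r5 : 0 < 1 - ys i := by have := ys_lt_one i; linarith
  have r6 : 1 ≤ 1 / (1 - ys i) := by
    rw [le_div_iff₀ r5]
    have := ys_pos i
    linarith
  have r7 : 0 ≤ Real.log (1 / (1 - ys i)) := Real.log_nonneg r6
  have r8 : 1 + Real.log (1 / (1 - ys i)) ≤ X ^ (τ / 4) := by
    have := Real.log_le_log (by positivity) r4
    linarith
  have r9 : (1 + Real.log (1 / (1 - ys i))) ^ 2 ≤ X ^ (τ / 2) := by
    have h5 := pow_le_pow_left₀ (by linarith) r8 2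
    have h6 : (X ^ (τ / 4)) ^ 2 = X ^ (τ / 2) := by
      rw [← Real.rpow_natCast, ← Real.rpow_mul hX0.le]
      congr 1
      push_cast
      ring
    rwa [h6] at h5
  have r10 : B ^ k * ((1 - ys (i + 1)) * (1 + Real.log (1 / (1 - ys i))) ^ 2) ≤
      (c * X ^ (τ / 2)) * ((X ^ (1 - 3 * τ))⁻¹ * X ^ (τ / 2)) := by
    refine mul_le_mul ?_ (mul_le_mul r3 r9 (by positivity) (by positivity)) (by positivity)
      (by positivity)
    rw [div_le_iff₀ hc] at h4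
    linarith
  have r11 : (c * X ^ (τ / 2)) * ((X ^ (1 - 3 * τ))⁻¹ * X ^ (τ / 2)) = c / X ^ (1 - 4 * τ) := by
    have h5 : X ^ (τ / 2) * X ^ (τ / 2) * X ^ (1 - 4 * τ) = X ^ (1 - 3 * τ) := by
      rw [← Real.rpow_add hX0, ← Real.rpow_add hX0]
      congr 1
      ring
    have h6 : (0 : ℝ) < X ^ (1 - 3 * τ) := by positivity
    have h7 : (0 : ℝ) < X ^ (1 - 4 * τ) := by positivity
    rw [eq_div_iff h7.ne']
    calc c * X ^ (τ / 2) * ((X ^ (1 - 3 * τ))⁻¹ * X ^ (τ / 2)) * X ^ (1 - 4 * τ)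
        = c * (X ^ (1 - 3 * τ))⁻¹ * (X ^ (τ / 2) * X ^ (τ / 2) * X ^ (1 - 4 * τ)) := by ring
      _ = c := by rw [h5]; field_simp
  rw [r11] at r10
  have r12 : 0 < 1 + Real.log (1 / (1 - ys i)) := by linarith
  rw [le_div_iff₀ (by positivity)]
  have h7 : (0 : ℝ) < X ^ (1 - 4 * τ) := by positivity
  rw [le_div_iff₀ h7] at r10
  linarith

end Pool.Agent.H65.RC
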