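import Pool.Agent.H65.RC.Rec
import Pool.Agent.H65.RC.Scl

/-!
# Upper bounds for the representation function
-/

open Finset PowerSeries Filter Topology
open Pool.Agent.H99.Inc Pool.Agent.H99.Jump Pool.Agent.H65.CP

namespace Pool.Agent.H65.RC

theorem R1_le_card {A : Set ℕ} {k m N : ℕ} (h : m ≤ N) :
    R1 A k m ≤ ((Fintype.piFinset fun _ : Fin k => AN A N).filter fun t => ∑ i, t i = m).card := by
  have h1 : R1 A k m = ({t : Fin k → ℕ | (∀ i, t i ∈ A) ∧ ∑ i, t i = m}).ncard := rfl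
  rw [h1, ← Set.ncard_coe_finset]
  refine Set.ncard_le_ncard ?_ (Finset.finite_toSet _)
  rintro t ⟨ht, hs⟩
  rw [Finset.mem_coe, mem_filter, Fintype.mem_piFinset]
  refine ⟨fun i => mem_AN.2 ⟨?_, ht i⟩, hs⟩
  have h3 : t i ≤ ∑ j, t j :=
    Finset.single_le_sum (f := t) (fun j _ => Nat.zero_le _) (Finset.mem_univ i)
  omega

theorem sum_R1_le (A : Set ℕ) (k N : ℕ) :
    ∑ m ∈ range (N + 1), R1 A k m ≤ (AN A N).card ^ k := by
  have h1 : ∑ m ∈ range (N + 1), R1 A k m ≤ ∑ m ∈ range (N + 1),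
      ((Fintype.piFinset fun _ : Fin k => AN A N).filter fun t => ∑ i, t i = m).card :=
    Finset.sum_le_sum fun m hm => R1_le_card (by rw [mem_range] at hm; omega)
  refine h1.trans ?_
  have h2 : (Fintype.piFinset fun _ : Fin k => AN A N).card = (AN A N).card ^ k := by
    rw [Fintype.card_piFinset_const]
  rw [← h2, ← Finset.card_biUnion]
  · refine Finset.card_le_card fun t ht => ?_
    rw [Finset.mem_biUnion] at ht
    obtain ⟨m, _, hm⟩ := ht
    exact (mem_filter.1 hm).1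
  · intro m _ m' _ hmm
    rw [Function.onFun, Finset.disjoint_left]
    intro t ht ht'
    rw [mem_filter] at ht ht'
    exact hmm (ht.2.symm.trans ht'.2)

theorem mul_R1_le {A : Set ℕ} {k n₀ : ℕ} (hm : ∀ n ≥ n₀, R1 A k n ≤ R1 A k (n + 1)) {n : ℕ}
    (hn : n₀ ≤ n) : n * R1 A k n ≤ (AN A (2 * n)).card ^ k := by
  refine le_trans ?_ (sum_R1_le A k (2 * n))
  have h1 : ∑ m ∈ range n, R1 A k (n + m) ≤ ∑ m ∈ range (2 * n + 1), R1 A k m := by
    rw [show 2 * n + 1 = n + (n + 1) by ring, Finset.sum_range_add, Finset.sum_range_succ]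
    omega
  refine le_trans ?_ h1
  calc n * R1 A k n = ∑ _m ∈ range n, R1 A k n := by
        rw [Finset.sum_const, card_range, smul_eq_mul]
    _ ≤ ∑ m ∈ range n, R1 A k (n + m) :=
        Finset.sum_le_sum fun m _ => mono_of hm hn (Nat.le_add_right n m)

/-- The upper bound for the representation function. -/
theorem R1_le {A : Set ℕ} {k n₀ : ℕ} (hk : 1 ≤ k) (hm : ∀ n ≥ n₀, R1 A k n ≤ R1 A k (n + 1))
    {ε C : ℝ} (hε : 0 ≤ ε)
    (hC : ∀ n : ℕ, 1 ≤ n → ((AN A n).card : ℝ) ≤ C * (n : ℝ) ^ (2 / (k : ℝ) + ε)) :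
    ∃ C₁ : ℝ, 0 < C₁ ∧ ∀ n : ℕ, (R1 A k n : ℝ) ≤ C₁ * ((n : ℝ) + 1) ^ (1 + k * ε) := by
  have hk0 : (0 : ℝ) < k := by exact_mod_cast hk
  have hC0 : 0 ≤ C := by
    have h1 := hC 1 le_rfl
    rw [Nat.cast_one, Real.one_rpow, mul_one] at h1
    exact (Nat.cast_nonneg _).trans h1
  obtain ⟨E, hE⟩ : ∃ E : ℝ, E = ∑ m ∈ range (n₀ + 1), (R1 A k m : ℝ) := ⟨_, rfl⟩
  have hE0 : 0 ≤ E := by rw [hE]; positivity
  refine ⟨C ^ k * 2 ^ (2 + k * ε) + E + 1, by positivity, fun n => ?_⟩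
  have hp : (1 : ℝ) ≤ ((n : ℝ) + 1) ^ (1 + k * ε) :=
    Real.one_le_rpow (by have : (0 : ℝ) ≤ n := Nat.cast_nonneg n; linarith) (by positivity)
  rcases Nat.lt_or_ge n (n₀ + 1) with hn | hn
  · have h1 : (R1 A k n : ℝ) ≤ E := by
      rw [hE]
      exact Finset.single_le_sum (f := fun m => (R1 A k m : ℝ)) (fun m _ => Nat.cast_nonneg _)
        (mem_range.2 hn)
    have h2 : E ≤ (C ^ k * 2 ^ (2 + k * ε) + E + 1) := by
      have : 0 ≤ C ^ k * 2 ^ (2 + k * ε) := by positivity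
      linarith
    refine (h1.trans h2).trans (le_mul_of_one_le_right (by positivity) hp)
  · have hn1 : 1 ≤ n := by omega
    have hn0 : (0 : ℝ) < n := by exact_mod_cast hn1
    have h1 : (n : ℝ) * R1 A k n ≤ ((AN A (2 * n)).card : ℝ) ^ k := by
      exact_mod_cast mul_R1_le hm (by omega)
    have h2 := hC (2 * n) (by omega)
    have h3 : ((AN A (2 * n)).card : ℝ) ^ k ≤ C ^ k * (2 ^ (2 + k * ε) * (n : ℝ) ^ (2 + k * ε)) := by
      have h4 := pow_le_pow_left₀ (Nat.cast_nonneg _) h2 k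
      refine h4.trans (le_of_eq ?_)
      rw [mul_pow, ← Real.rpow_natCast ((((2 * n : ℕ) : ℝ)) ^ (2 / (k : ℝ) + ε)) k,
        ← Real.rpow_mul (Nat.cast_nonneg _)]
      have h5 : (2 / (k : ℝ) + ε) * k = 2 + k * ε := by
        field_simp
      rw [h5]
      push_cast
      rw [Real.mul_rpow (by norm_num) hn0.le]
    have h4 : (n : ℝ) ^ (2 + k * ε) = n * (n : ℝ) ^ (1 + k * ε) := by
      rw [show 2 + (k : ℝ) * ε = 1 + (1 + k * ε) by ring, Real.rpow_add hn0, Real.rpow_one]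
    rw [h4] at h3
    have h5 : (n : ℝ) * R1 A k n ≤ n * (C ^ k * 2 ^ (2 + k * ε) * (n : ℝ) ^ (1 + k * ε)) := by
      refine (h1.trans h3).trans (le_of_eq ?_)
      ring
    have h6 := le_of_mul_le_mul_left h5 hn0
    have h7 : (n : ℝ) ^ (1 + k * ε) ≤ ((n : ℝ) + 1) ^ (1 + k * ε) :=
      Real.rpow_le_rpow hn0.le (by linarith) (by positivity)
    calc (R1 A k n : ℝ) ≤ C ^ k * 2 ^ (2 + k * ε) * (n : ℝ) ^ (1 + k * ε) := h6
      _ ≤ C ^ k * 2 ^ (2 + k * ε) * ((n : ℝ) + 1) ^ (1 + k * ε) :=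
          mul_le_mul_of_nonneg_left h7 (by positivity)
      _ ≤ (C ^ k * 2 ^ (2 + k * ε) + E + 1) * ((n : ℝ) + 1) ^ (1 + k * ε) :=
          mul_le_mul_of_nonneg_right (by linarith) (by positivity)

theorem abs_inc_le_pow {A : Set ℕ} {k : ℕ} {C₁ p : ℝ} (hC₁ : 0 < C₁) (hp : 0 ≤ p)
    (h : ∀ n : ℕ, (R1 A k n : ℝ) ≤ C₁ * ((n : ℝ) + 1) ^ p) (n : ℕ) :
    |inc A k n| ≤ C₁ * ((n : ℝ) + 1) ^ p := by
  rw [abs_le]
  rcases n with _ | n
  · rw [inc_zero]
    have h1 := h 0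
    have h2 : (0 : ℝ) ≤ R1 A k 0 := Nat.cast_nonneg _
    constructor
    · linarith
    · exact h1
  · rw [inc_succ]
    have h1 := h n
    have h2 := h (n + 1)
    have h3 : (0 : ℝ) ≤ R1 A k n := Nat.cast_nonneg _
    have h4 : (0 : ℝ) ≤ R1 A k (n + 1) := Nat.cast_nonneg _
    have h5 : C₁ * ((n : ℝ) + 1) ^ p ≤ C₁ * (((n + 1 : ℕ) : ℝ) + 1) ^ p := by
      refine mul_le_mul_of_nonneg_left (Real.rpow_le_rpow (by positivity) ?_ hp) hC₁.le
      push_cast
      linarith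
    constructor
    · linarith
    · linarith

/-- Exponential decay beats powers. -/
theorem exp_decay (p τ : ℝ) (hp : 1 ≤ p) (hτ : 0 < τ) :
    ∃ C : ℝ, 0 < C ∧ ∀ X t : ℝ, 1 ≤ X → X ≤ t →
      (t + 1) ^ p * Real.exp (-(t / X ^ (1 - 2 * τ))) ≤ C * X ^ (-1 : ℝ) := by
  obtain ⟨m, hm⟩ : ∃ m : ℕ, p + (p + 1) / (2 * τ) ≤ m := exists_nat_ge _
  have hm1 : p ≤ m := by
    have : 0 ≤ (p + 1) / (2 * τ) := by positivity
    linarith
  have hm2 : p + 1 ≤ 2 * τ * m := by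
    have h1 : (p + 1) / (2 * τ) ≤ m := by linarith
    rw [div_le_iff₀ (by positivity)] at h1
    linarith
  refine ⟨2 ^ p * m.factorial, by positivity, fun X t hX ht => ?_⟩
  have hX0 : 0 < X := by linarith
  have ht0 : 0 < t := by linarith
  obtain ⟨v, hv⟩ : ∃ v : ℝ, v = t / X := ⟨_, rfl⟩
  have hv1 : 1 ≤ v := by rw [hv, le_div_iff₀ hX0]; linarith
  have hv0 : 0 < v := by linarith
  have htv : t = v * X := by rw [hv]; field_simp
  have h1 : t / X ^ (1 - 2 * τ) = v * X ^ (2 * τ) := by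
    have h2 : X ^ (2 * τ) * X ^ (1 - 2 * τ) = X := by
      rw [← Real.rpow_add hX0]
      calc X ^ (2 * τ + (1 - 2 * τ)) = X ^ (1 : ℝ) := by congr 1; ring
        _ = X := Real.rpow_one X
    rw [div_eq_iff (by positivity), htv]
    calc v * X = v * (X ^ (2 * τ) * X ^ (1 - 2 * τ)) := by rw [h2]
      _ = _ := by ring
  have hu0 : 0 < v * X ^ (2 * τ) := by positivity
  have h2 : Real.exp (-(v * X ^ (2 * τ))) ≤ m.factorial / (v * X ^ (2 * τ)) ^ m := by
    have h3 := Real.pow_div_factorial_le_exp (v * X ^ (2 * τ)) hu0.le m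
    rw [Real.exp_neg, inv_eq_one_div, div_le_div_iff₀ (Real.exp_pos _) (by positivity), one_mul]
    rw [div_le_iff₀ (by positivity)] at h3
    linarith
  have h3 : (t + 1) ^ p ≤ 2 ^ p * (v ^ (m : ℝ) * X ^ p) := by
    calc (t + 1) ^ p ≤ (2 * (v * X)) ^ p :=
          Real.rpow_le_rpow (by positivity) (by rw [← htv]; linarith) (by linarith)
      _ = 2 ^ p * (v ^ p * X ^ p) := by
          rw [Real.mul_rpow (by norm_num) (by positivity), Real.mul_rpow hv0.le hX0.le]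
      _ ≤ 2 ^ p * (v ^ (m : ℝ) * X ^ p) := by
          refine mul_le_mul_of_nonneg_left (mul_le_mul_of_nonneg_right ?_ (by positivity))
            (by positivity)
          exact Real.rpow_le_rpow_of_exponent_le hv1 hm1
  rw [h1]
  calc (t + 1) ^ p * Real.exp (-(v * X ^ (2 * τ)))
      ≤ (2 ^ p * (v ^ (m : ℝ) * X ^ p)) * (m.factorial / (v * X ^ (2 * τ)) ^ m) :=
        mul_le_mul h3 h2 (Real.exp_pos _).le (by positivity)
    _ = 2 ^ p * m.factorial * (X ^ p * (X ^ (2 * τ * m))⁻¹) := by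
        rw [mul_pow, Real.rpow_natCast, ← Real.rpow_natCast (X ^ (2 * τ)) m,
          ← Real.rpow_mul hX0.le]
        field_simp
    _ ≤ 2 ^ p * m.factorial * X ^ (-1 : ℝ) := by
        refine mul_le_mul_of_nonneg_left ?_ (by positivity)
        rw [← Real.rpow_neg hX0.le, ← Real.rpow_add hX0]
        exact Real.rpow_le_rpow_of_exponent_le hX (by linarith)

end Pool.Agent.H65.RC
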