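import Pool.Agent.H65.RC.Ide
import Pool.Agent.H99.Jump.Final

/-!
# Fibres over a large increment
-/

open Finset PowerSeries
open Pool.Agent.H99.Inc Pool.Agent.H99.Jump Pool.Agent.H65.CP

namespace Pool.Agent.H65.RC

theorem moment_nonneg (A : Set ℕ) (k : ℕ) {n : ℕ} (hn : 1 ≤ n) :
    0 ≤ ∑ a ∈ range (n + 1), ((k : ℝ) * a - ((n - a : ℕ) : ℝ)) * (ind A a * inc A k (n - a)) := by
  obtain ⟨m, rfl⟩ : ∃ m, n = m + 1 := ⟨n - 1, by omega⟩
  have h := moment_identity A k m
  rw [Finset.Nat.sum_antidiagonal_eq_sum_range_succ_mk] at h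
  have h0 : (0 : ℝ) ≤ R1 A (k + 1) m := Nat.cast_nonneg _
  rw [← h] at h0
  exact h0

/-- Fibre inequality. -/
theorem fibre {A : Set ℕ} {k n₀ : ℕ} (hk : 1 ≤ k)
    (hmono : ∀ n ≥ n₀, R1 A k n ≤ R1 A k (n + 1)) {j a₀ : ℕ} (ha₀ : a₀ ∈ A)
    (h2 : 2 * k * a₀ ≤ j) (hj : 2 * n₀ + 2 ≤ j) :
    inc A k j ≤ 4 * k * ∑ s ∈ range (j + 1),
      if j ≤ 2 * (k + 1) * s then ind A (a₀ + s) * max (inc A k (j - s)) 0 else 0 := by
  have h2a : 2 * a₀ ≤ j := by nlinarith
  have hj0 : (0 : ℝ) < j := by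
    have : 0 < j := by omega
    exact_mod_cast this
  have hk0 : (0 : ℝ) ≤ k := Nat.cast_nonneg _
  have hind : ind A a₀ = 1 := by
    unfold ind
    rw [if_pos ha₀]
  have hincj : 0 ≤ inc A k j := inc_nonneg hmono (by omega)
  have h0 := moment_nonneg A k (n := j + a₀) (by omega)
  obtain ⟨g, hg⟩ : ∃ g : ℕ → ℝ, g = fun a => if j + a₀ ≤ (k + 1) * a then
      2 * (k : ℝ) * j * (ind A a * max (inc A k (j + a₀ - a)) 0) else 0 := ⟨_, rfl⟩
  have hle : ∀ a ∈ range (j + a₀ + 1),
      ((k : ℝ) * a - ((j + a₀ - a : ℕ) : ℝ)) * (ind A a * inc A k (j + a₀ - a)) ≤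
        g a + if a = a₀ then -((j : ℝ) / 2) * inc A k j else 0 := by
    intro a ha
    rw [mem_range] at ha
    rw [hg]
    dsimp only
    have hcast : ((j + a₀ - a : ℕ) : ℝ) = (j : ℝ) + a₀ - a := by
      rw [Nat.cast_sub (by omega)]
      push_cast
      ring
    by_cases haa : a = a₀
    · subst haa
      have h3 : ¬ (j + a ≤ (k + 1) * a) := by
        intro h
        nlinarith
      rw [if_neg h3, if_pos rfl, hind, zero_add, one_mul]
      have h4 : j + a - a = j := by omega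
      rw [h4]
      refine mul_le_mul_of_nonneg_right ?_ hincj
      have h5 : (2 : ℝ) * k * a ≤ j := by exact_mod_cast h2
      linarith
    · rw [if_neg haa, add_zero]
      by_cases hc : j + a₀ ≤ (k + 1) * a
      · rw [if_pos hc]
        have hc' : (j : ℝ) + a₀ ≤ (k + 1) * a := by exact_mod_cast hc
        have h3 : 0 ≤ (k : ℝ) * a - ((j + a₀ - a : ℕ) : ℝ) := by
          rw [hcast]
          linarith
        have h4 : (k : ℝ) * a - ((j + a₀ - a : ℕ) : ℝ) ≤ 2 * (k : ℝ) * j := by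
          have h5 : (a : ℝ) ≤ 2 * j := by
            have : a ≤ 2 * j := by omega
            exact_mod_cast this
          have h6 : (k : ℝ) * a ≤ k * (2 * j) := mul_le_mul_of_nonneg_left h5 hk0
          have h7 : (0 : ℝ) ≤ ((j + a₀ - a : ℕ) : ℝ) := Nat.cast_nonneg _
          linarith
        have h5 : ind A a * inc A k (j + a₀ - a) ≤ ind A a * max (inc A k (j + a₀ - a)) 0 :=
          mul_le_mul_of_nonneg_left (le_max_left _ _) (ind_nonneg A a)
        have h6 : 0 ≤ ind A a * max (inc A k (j + a₀ - a)) 0 :=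
          mul_nonneg (ind_nonneg A a) (le_max_right _ _)
        exact (mul_le_mul_of_nonneg_left h5 h3).trans (mul_le_mul_of_nonneg_right h4 h6)
      · rw [if_neg hc]
        push Not at hc
        have hc' : ((k : ℝ) + 1) * a < j + a₀ := by exact_mod_cast hc
        have h3 : (k : ℝ) * a - ((j + a₀ - a : ℕ) : ℝ) ≤ 0 := by
          rw [hcast]
          linarith
        have h4 : n₀ < j + a₀ - a := by
          have h5 : 2 * a ≤ (k + 1) * a := Nat.mul_le_mul_right a (by omega)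
          omega
        have h5 : 0 ≤ inc A k (j + a₀ - a) := inc_nonneg hmono h4
        exact mul_nonpos_of_nonpos_of_nonneg h3 (mul_nonneg (ind_nonneg A a) h5)
  have h1 := Finset.sum_le_sum hle
  rw [Finset.sum_add_distrib, Finset.sum_ite_eq' (range (j + a₀ + 1)) a₀
    (fun _ => -((j : ℝ) / 2) * inc A k j), if_pos (by rw [mem_range]; omega)] at h1
  have hsplit : ∑ a ∈ range (j + a₀ + 1), g a = ∑ s ∈ range (j + 1), g (a₀ + s) := by
    rw [show j + a₀ + 1 = a₀ + (j + 1) by ring, Finset.sum_range_add]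
    rw [Finset.sum_eq_zero, zero_add]
    intro a ha
    rw [mem_range] at ha
    rw [hg]
    dsimp only
    rw [if_neg]
    intro h
    nlinarith
  have hg2 : ∑ s ∈ range (j + 1), g (a₀ + s) ≤ 2 * (k : ℝ) * j * ∑ s ∈ range (j + 1),
      (if j ≤ 2 * (k + 1) * s then ind A (a₀ + s) * max (inc A k (j - s)) 0 else 0) := by
    rw [Finset.mul_sum]
    refine Finset.sum_le_sum fun s hs => ?_
    rw [mem_range] at hs
    rw [hg]
    dsimp only
    have h6 : 0 ≤ ind A (a₀ + s) * max (inc A k (j - s)) 0 :=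
      mul_nonneg (ind_nonneg A _) (le_max_right _ _)
    have h7 : j + a₀ - (a₀ + s) = j - s := by omega
    rw [h7]
    by_cases hc : j + a₀ ≤ (k + 1) * (a₀ + s)
    · rw [if_pos hc, if_pos]
      nlinarith
    · rw [if_neg hc]
      split_ifs
      · positivity
      · simp
  rw [hsplit] at h1
  have h8 : (j : ℝ) / 2 * inc A k j ≤ 2 * (k : ℝ) * j * ∑ s ∈ range (j + 1),
      (if j ≤ 2 * (k + 1) * s then ind A (a₀ + s) * max (inc A k (j - s)) 0 else 0) := by
    linarith
  have h9 : (j : ℝ) / 2 * (4 * k * ∑ s ∈ range (j + 1),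
      (if j ≤ 2 * (k + 1) * s then ind A (a₀ + s) * max (inc A k (j - s)) 0 else 0)) =
      2 * (k : ℝ) * j * ∑ s ∈ range (j + 1),
      (if j ≤ 2 * (k + 1) * s then ind A (a₀ + s) * max (inc A k (j - s)) 0 else 0) := by
    ring
  rw [← h9] at h8
  exact le_of_mul_le_mul_left h8 (by positivity)

end Pool.Agent.H65.RC
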