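import Pool.Agent.H65.RC.Bnd

/-!
# Recurrence at every scale
-/

open Finset PowerSeries Filter Topology
open Pool.Agent.H99.Inc Pool.Agent.H99.Jump Pool.Agent.H65.CP

namespace Pool.Agent.H65.RC

theorem main {A : Set ℕ} (hA : A.Infinite) {k : ℕ} (hk : 3 ≤ k)
    (hmono : ∃ n₀, ∀ n ≥ n₀, R1 A k n ≤ R1 A k (n + 1)) {ε η : ℝ} (hε : 0 ≤ ε) (hη : 0 < η)
    (hO : ∃ C : ℝ, ∀ n : ℕ, 1 ≤ n → ((AN A n).card : ℝ) ≤ C * (n : ℝ) ^ (2 / (k : ℝ) + ε)) :
    ∃ N₀ : ℕ, ∀ N ≥ N₀, ∀ M : ℕ, (M : ℝ) ≤ (N : ℝ) ^ (1 / (1 + k * ε) - η) →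
      ∃ s : ℕ, (N : ℝ) ^ (1 / (1 + k * ε) - η) ≤ s ∧ s ≤ N ∧
        ((AN A M).card : ℝ) * (N : ℝ) ^ (-(k * ε) - η) ≤ nu A M s := by
  obtain ⟨n₀, hm⟩ := hmono
  obtain ⟨C₀, hC₀⟩ := hO
  have hk0 : (0 : ℝ) < k := by
    have : 0 < k := by omega
    exact_mod_cast this
  have hk1 : 1 ≤ k := by omega
  obtain ⟨p, hp⟩ : ∃ p : ℝ, p = 1 + k * ε := ⟨_, rfl⟩
  have hp1 : 1 ≤ p := by
    rw [hp]
    have : 0 ≤ (k : ℝ) * ε := by positivity
    linarith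
  have hp0 : 0 < p := by linarith
  obtain ⟨C₁, hC₁, hR⟩ := R1_le hk1 hm hε hC₀
  rw [← hp] at hR
  have hinc := abs_inc_le_pow hC₁ hp0.le hR
  obtain ⟨C₂, hC₂, hrec⟩ := recur hk1 hm
  -- the small parameter
  obtain ⟨τ, hτ⟩ : ∃ τ : ℝ, τ = min (η / 6) (1 / (12 * p)) := ⟨_, rfl⟩
  have hτ0 : 0 < τ := by rw [hτ]; positivity
  have hτη : 6 * τ ≤ η := by
    have : τ ≤ η / 6 := by rw [hτ]; exact min_le_left _ _
    linarith
  have hτp : 12 * τ ≤ 1 / p := by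
    have : τ ≤ 1 / (12 * p) := by rw [hτ]; exact min_le_right _ _
    calc 12 * τ ≤ 12 * (1 / (12 * p)) := by linarith
      _ = 1 / p := by field_simp
  have hpinv : 1 / p ≤ 1 := by
    rw [div_le_one hp0]
    exact hp1
  have hτ1 : τ ≤ 1 / 12 := by linarith
  have hj := jumps hA hk ⟨n₀, hm⟩ hτ0 (by linarith)
  obtain ⟨C₃, hC₃, hdec⟩ := exp_decay p τ hp1 hτ0
  have e1 : ∀ᶠ X : ℝ in atTop, 2 * (C₁ * C₃) + 1 ≤ X ^ (1 : ℝ) :=
    (tendsto_rpow_atTop (by norm_num)).eventually_ge_atTop _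
  have e2 : ∀ᶠ X : ℝ in atTop, (C₁ + 1) * (2 * k + 3) ^ p ≤ X ^ (p * τ) :=
    (tendsto_rpow_atTop (by positivity)).eventually_ge_atTop _
  have e3 : ∀ᶠ X : ℝ in atTop, (n₀ : ℝ) + 2 ≤ X ^ (1 / p - 5 * τ) :=
    (tendsto_rpow_atTop (by linarith)).eventually_ge_atTop _
  have e4 : ∀ᶠ X : ℝ in atTop, 4 * k * (C₁ * 2 ^ p + C₂) ≤ X ^ τ :=
    (tendsto_rpow_atTop hτ0).eventually_ge_atTop _
  have hall := (hj.and (e1.and (e2.and (e3.and (e4.and (eventually_ge_atTop (2 : ℝ)))))))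
  have hnat := tendsto_natCast_atTop_atTop (R := ℝ) |>.eventually hall
  obtain ⟨N₀, hN₀⟩ := eventually_atTop.1 hnat
  refine ⟨N₀, fun N hN M hM => ?_⟩
  obtain ⟨⟨n, hn⟩, h1, h2, h3, h4, hX2⟩ := hN₀ N hN
  obtain ⟨X, hX⟩ : ∃ X : ℝ, X = (N : ℝ) := ⟨_, rfl⟩
  rw [← hX] at hn h1 h2 h3 h4 hX2 hM ⊢
  rw [← hp] at hM ⊢
  have hX0 : 0 < X := by linarith
  have hX1 : 1 ≤ X := by linarith
  have hn0 : (0 : ℝ) ≤ n := Nat.cast_nonneg _
  have hexp1 : Real.exp (-((n : ℝ) / X ^ (1 - 2 * τ))) ≤ 1 := by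
    rw [Real.exp_le_one_iff]
    have : 0 ≤ (n : ℝ) / X ^ (1 - 2 * τ) := by positivity
    linarith
  -- the increment is large
  have hbig : X ^ (1 - 4 * τ) ≤ |inc A k n| :=
    hn.trans (mul_le_of_le_one_right (abs_nonneg _) hexp1)
  -- `n ≤ N`
  have hnN : (n : ℝ) ≤ X := by
    by_contra hcon
    push Not at hcon
    have h5 := hdec X n hX1 hcon.le
    have h6 : |inc A k n| * Real.exp (-((n : ℝ) / X ^ (1 - 2 * τ))) ≤
        C₁ * (C₃ * X ^ (-1 : ℝ)) := by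
      calc |inc A k n| * Real.exp (-((n : ℝ) / X ^ (1 - 2 * τ)))
          ≤ C₁ * ((n : ℝ) + 1) ^ p * Real.exp (-((n : ℝ) / X ^ (1 - 2 * τ))) :=
            mul_le_mul_of_nonneg_right (hinc n) (Real.exp_pos _).le
        _ = C₁ * (((n : ℝ) + 1) ^ p * Real.exp (-((n : ℝ) / X ^ (1 - 2 * τ)))) := by ring
        _ ≤ _ := mul_le_mul_of_nonneg_left h5 hC₁.le
    have h7 : 1 ≤ X ^ (1 - 4 * τ) := Real.one_le_rpow hX1 (by linarith)
    have h8 : 1 ≤ C₁ * (C₃ * X ^ (-1 : ℝ)) := h7.trans (hn.trans h6)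
    rw [Real.rpow_one] at h1
    rw [Real.rpow_neg_one, ← mul_assoc, ← div_eq_mul_inv, le_div_iff₀ hX0] at h8
    have : 0 < C₁ * C₃ := by positivity
    linarith
  -- `n` is not small
  obtain ⟨x, hx⟩ : ∃ x : ℝ, x = X ^ (1 / p - 5 * τ) := ⟨_, rfl⟩
  rw [← hx] at h3
  have hx0 : 0 < x := by rw [hx]; positivity
  have hxn : (2 * k + 3) * x ≤ n + 1 := by
    have h5 : X ^ (1 - 4 * τ) ≤ C₁ * ((n : ℝ) + 1) ^ p := hbig.trans (hinc n)
    have h6 : ((2 * k + 3) * x) ^ p ≤ ((n : ℝ) + 1) ^ p := by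
      have h7 : x ^ p = X ^ (1 - 5 * τ * p) := by
        rw [hx, ← Real.rpow_mul hX0.le]
        congr 1
        field_simp
      rw [Real.mul_rpow (by positivity) hx0.le, h7]
      have h8 : X ^ (1 - 5 * τ * p) * X ^ (p * τ) ≤ X ^ (1 - 4 * τ) := by
        rw [← Real.rpow_add hX0]
        refine Real.rpow_le_rpow_of_exponent_le hX1 ?_
        nlinarith
      have h9 : X ^ (1 - 5 * τ * p) * ((C₁ + 1) * (2 * k + 3) ^ p) ≤ C₁ * ((n : ℝ) + 1) ^ p :=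
        (mul_le_mul_of_nonneg_left h2 (by positivity)).trans (h8.trans h5)
      have h10 : C₁ * ((n : ℝ) + 1) ^ p ≤ (C₁ + 1) * ((n : ℝ) + 1) ^ p :=
        mul_le_mul_of_nonneg_right (by linarith) (by positivity)
      have h11 : (C₁ + 1) * ((2 * k + 3) ^ p * X ^ (1 - 5 * τ * p)) ≤
          (C₁ + 1) * ((n : ℝ) + 1) ^ p := by
        refine le_trans (le_of_eq ?_) (h9.trans h10)
        ring
      exact le_of_mul_le_mul_left h11 (by positivity)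
    by_contra hcon
    push Not at hcon
    exact absurd h6 (not_le.2 (Real.rpow_lt_rpow (by positivity) hcon hp0))
  have hx1 : 1 ≤ x := by
    have : (0 : ℝ) ≤ n₀ := Nat.cast_nonneg _
    linarith
  have hxn' : (2 * k + 2) * x ≤ n := by
    have h5 : (2 * (k : ℝ) + 3) * x = (2 * k + 2) * x + x := by ring
    linarith
  have hηx : X ^ (1 / p - η) ≤ x := by
    rw [hx]
    exact Real.rpow_le_rpow_of_exponent_le hX1 (by linarith)
  -- the hypotheses of `recur`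
  have hk3 : (3 : ℝ) ≤ k := by exact_mod_cast hk
  have hj1 : 2 * n₀ + 2 ≤ n := by
    have h5 : (2 * (n₀ : ℝ) + 2) ≤ n := by
      have h6 : 2 * x ≤ (2 * (k : ℝ) + 2) * x := mul_le_mul_of_nonneg_right (by linarith) hx0.le
      linarith
    exact_mod_cast h5
  have hj2 : 2 * k * M ≤ n := by
    have h5 : 2 * (k : ℝ) * M ≤ n := by
      have h6 : 2 * (k : ℝ) * M ≤ 2 * k * x :=
        mul_le_mul_of_nonneg_left (hM.trans hηx) (by positivity)
      have h7 : (2 * (k : ℝ) + 2) * x = 2 * k * x + 2 * x := by ring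
      linarith
    exact_mod_cast h5
  obtain ⟨s, hs1, hs2, hs3⟩ := hrec n M hj1 hj2
  refine ⟨s, ?_, ?_, ?_⟩
  · have h5 : (n : ℝ) ≤ 2 * (k + 1) * s := by exact_mod_cast hs1
    have h6 : (2 * (k : ℝ) + 2) * x ≤ (2 * k + 2) * s := by linarith
    exact hηx.trans (le_of_mul_le_mul_left h6 (by positivity))
  · have h5 : n ≤ N := by
      rw [hX] at hnN
      exact_mod_cast hnN
    omega
  · have h5 : inc A k n = |inc A k n| := (abs_of_nonneg (inc_nonneg hm (by omega))).symm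
    rw [h5] at hs3
    have h6 : (R1 A k n : ℝ) + C₂ ≤ (C₁ * 2 ^ p + C₂) * X ^ p := by
      have h7 : ((n : ℝ) + 1) ^ p ≤ (2 * X) ^ p :=
        Real.rpow_le_rpow (by positivity) (by linarith) hp0.le
      rw [Real.mul_rpow (by norm_num) hX0.le] at h7
      have h8 := (hR n).trans (mul_le_mul_of_nonneg_left h7 hC₁.le)
      have h9 : 1 ≤ X ^ p := Real.one_le_rpow hX1 hp0.le
      have h10 := mul_le_mul_of_nonneg_left h9 hC₂
      linarith
    have h7 : ((AN A M).card : ℝ) * X ^ (1 - 4 * τ) ≤ X ^ τ * (X ^ p * nu A M s) := by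
      calc ((AN A M).card : ℝ) * X ^ (1 - 4 * τ)
          ≤ ((AN A M).card : ℝ) * |inc A k n| :=
            mul_le_mul_of_nonneg_left hbig (Nat.cast_nonneg _)
        _ ≤ 4 * k * ((R1 A k n : ℝ) + C₂) * nu A M s := hs3
        _ ≤ 4 * k * ((C₁ * 2 ^ p + C₂) * X ^ p) * nu A M s :=
            mul_le_mul_of_nonneg_right (mul_le_mul_of_nonneg_left h6 (by positivity))
              (nu_nonneg A M s)
        _ = 4 * k * (C₁ * 2 ^ p + C₂) * (X ^ p * nu A M s) := by ring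
        _ ≤ X ^ τ * (X ^ p * nu A M s) :=
            mul_le_mul_of_nonneg_right h4 (mul_nonneg (by positivity) (nu_nonneg A M s))
    have h8 : X ^ (-(k * ε) - η) * X ^ (τ + p) ≤ X ^ (1 - 4 * τ) := by
      rw [← Real.rpow_add hX0]
      refine Real.rpow_le_rpow_of_exponent_le hX1 ?_
      rw [hp]
      linarith
    have h9 : X ^ (τ + p) * (((AN A M).card : ℝ) * X ^ (-(k * ε) - η)) ≤
        X ^ (τ + p) * nu A M s := by
      calc X ^ (τ + p) * (((AN A M).card : ℝ) * X ^ (-(k * ε) - η))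
          = ((AN A M).card : ℝ) * (X ^ (-(k * ε) - η) * X ^ (τ + p)) := by ring
        _ ≤ ((AN A M).card : ℝ) * X ^ (1 - 4 * τ) :=
            mul_le_mul_of_nonneg_left h8 (Nat.cast_nonneg _)
        _ ≤ X ^ τ * (X ^ p * nu A M s) := h7
        _ = X ^ (τ + p) * nu A M s := by rw [Real.rpow_add hX0]; ring
    exact le_of_mul_le_mul_left h9 (by positivity)

end Pool.Agent.H65.RC
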