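import Pool.Agent.H65.CP.Main

/-!
# The identity of the first moments, and recurrence

For `D = (1 - X) G ^ k` one has `k X G' D - G X D' = X G ^ (k + 1)`; comparing coefficients,
`∑ a ∈ A, (k a - (n - a)) inc (n - a) = R1 A (k + 1) (n - 1) ≥ 0`.
-/

open Finset PowerSeries
open Pool.Agent.H99.Inc Pool.Agent.H99.Jump Pool.Agent.H65.CP

namespace Pool.Agent.H65.RC

theorem derivative_identity (A : Set ℕ) (k : ℕ) :
    ((k : PowerSeries ℝ)) * derivative ℝ (fA A) * dA A k - fA A * derivative ℝ (dA A k) =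
      fA A ^ (k + 1) := by
  have h1 : derivative ℝ (dA A k) = (1 - X) * derivative ℝ (fA A ^ k) - fA A ^ k := by
    rw [dA, Derivation.leibniz, map_sub, smul_eq_mul, smul_eq_mul, derivative_X,
      Derivation.map_one_eq_zero]
    ring
  have h2 : fA A * derivative ℝ (fA A ^ k) = (k : PowerSeries ℝ) * fA A ^ k * derivative ℝ (fA A) := by
    rcases k with _ | m
    · simp
    · rw [Derivation.leibniz_pow, Nat.add_sub_cancel, nsmul_eq_mul, smul_eq_mul]
      ring
  calc (k : PowerSeries ℝ) * derivative ℝ (fA A) * dA A k - fA A * derivative ℝ (dA A k)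
      = (k : PowerSeries ℝ) * derivative ℝ (fA A) * dA A k -
        ((1 - X) * (fA A * derivative ℝ (fA A ^ k)) - fA A ^ (k + 1)) := by
        rw [h1]
        ring
    _ = fA A ^ (k + 1) := by
        rw [h2, dA]
        ring

theorem coeff_fA (A : Set ℕ) (n : ℕ) : coeff n (fA A) = ind A n := coeff_S_ind A n

/-- The identity of the first moments. -/
theorem moment_identity (A : Set ℕ) (k n : ℕ) :
    ∑ p ∈ antidiagonal (n + 1), ((k : ℝ) * p.1 - p.2) * (ind A p.1 * inc A k p.2) =
      (R1 A (k + 1) n : ℝ) := by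
  have h1 := congrArg (coeff n) (derivative_identity A k)
  rw [fA, coeff_pow_S, ← fA, map_sub, mul_assoc] at h1
  have h2 : coeff n ((k : PowerSeries ℝ) * (derivative ℝ (fA A) * dA A k)) =
      ∑ p ∈ antidiagonal (n + 1), ((k : ℝ) * p.1) * (ind A p.1 * inc A k p.2) := by
    have h3 : (k : PowerSeries ℝ) = C (k : ℝ) := by simp
    rw [h3, coeff_C_mul, PowerSeries.coeff_mul, Finset.mul_sum,
      Finset.Nat.sum_antidiagonal_succ]
    simp only [Nat.cast_zero, mul_zero, zero_mul, zero_add]
    refine Finset.sum_congr rfl fun p _ => ?_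
    rw [coeff_derivative, coeff_fA, coeff_dA]
    push_cast
    ring
  have h3 : coeff n (fA A * derivative ℝ (dA A k)) =
      ∑ p ∈ antidiagonal (n + 1), (p.2 : ℝ) * (ind A p.1 * inc A k p.2) := by
    rw [PowerSeries.coeff_mul, Finset.Nat.sum_antidiagonal_succ']
    simp only [Nat.cast_zero, zero_mul, zero_add]
    refine Finset.sum_congr rfl fun p _ => ?_
    rw [coeff_derivative, coeff_fA, coeff_dA]
    push_cast
    ring
  rw [h2, h3, ← Finset.sum_sub_distrib] at h1
  rw [← h1]
  refine Finset.sum_congr rfl fun p _ => ?_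
  ring

end Pool.Agent.H65.RC
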