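import Pool.Agent.H65.CP.Fin

/-!
# Large increments at a given scale
-/

open Finset PowerSeries Filter Topology
open Pool.Agent.H99.Inc Pool.Agent.H99.Jump Pool.Agent.H65.CP

namespace Pool.Agent.H65.RC

/-- The lower bound for the square sum of the increments, `k ≥ 3`. -/
theorem sq_ge {k : ℕ} (hk : 3 ≤ k) : ∃ c > 0, ∀ (A : Set ℕ) (x : ℝ), 1 / 2 ≤ x → x < 1 →
    c * (gen A x) ^ k ≤ (∑' n, (inc A k n) ^ 2 * x ^ n) * (1 + Real.log (1 / (1 - x))) ^ 2 := by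
  have hlog : ∀ x : ℝ, 1 / 2 ≤ x → x < 1 → 0 ≤ Real.log (1 / (1 - x)) := by
    intro x h0 h1
    refine Real.log_nonneg ?_
    rw [le_div_iff₀ (by linarith)]
    linarith
  rcases hk.eq_or_lt with rfl | h4
  · obtain ⟨c, hc, h⟩ := square_sum_ge_three
    refine ⟨c, hc, fun A x h0 h1 => (h A x h0 h1).trans ?_⟩
    refine mul_le_mul_of_nonneg_left ?_ (sq_sum_nonneg A 3 (by linarith))
    have := hlog x h0 h1
    exact pow_le_pow_left₀ this (by linarith) 2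
  · obtain ⟨c, hc, h⟩ := square_sum_ge (k := k) h4
    refine ⟨c, hc, fun A x h0 h1 => (h A x (by linarith) h1).trans ?_⟩
    have h2 := hlog x h0 h1
    have h3 : (1 : ℝ) ≤ (1 + Real.log (1 / (1 - x))) ^ 2 := one_le_pow₀ (by linarith)
    exact le_mul_of_one_le_right (sq_sum_nonneg A k (by linarith)) h3

theorem summable_abs_inc (A : Set ℕ) (k : ℕ) {y : ℝ} (h0 : 0 ≤ y) (h1 : y < 1) :
    Summable fun n => |inc A k n| * y ^ n := by
  have := absConv_dA A k h0 h1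
  unfold AbsConv at this
  simpa only [coeff_dA] using this

/-- The sum of the absolute values of the increments. -/
theorem abs_sum {A : Set ℕ} {k n₀ : ℕ} (hm : ∀ n ≥ n₀, R1 A k n ≤ R1 A k (n + 1)) :
    ∃ E : ℝ, 0 ≤ E ∧ ∀ y : ℝ, 0 ≤ y → y < 1 →
      ∑' n, |inc A k n| * y ^ n ≤ (1 - y) * gen A y ^ k + E := by
  obtain ⟨E, hE⟩ : ∃ E : ℝ, E = ∑ n ∈ range (n₀ + 1), 2 * |inc A k n| := ⟨_, rfl⟩
  refine ⟨E, by rw [hE]; positivity, fun y hy0 hy1 => ?_⟩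
  rw [← tsum_inc A k hy0 hy1]
  have hs := summable_inc A k hy0 hy1
  have hb : ∀ n ∉ range (n₀ + 1), (if n < n₀ + 1 then 2 * |inc A k n| else 0 : ℝ) = 0 := by
    intro n hn
    rw [mem_range] at hn
    rw [if_neg hn]
  have hbs : Summable fun n => (if n < n₀ + 1 then 2 * |inc A k n| else 0 : ℝ) :=
    summable_of_ne_finset_zero hb
  have hE2 : E = ∑' n, (if n < n₀ + 1 then 2 * |inc A k n| else 0 : ℝ) := by
    rw [tsum_eq_sum hb, hE]
    refine Finset.sum_congr rfl fun n hn => ?_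
    rw [mem_range] at hn
    rw [if_pos hn]
  rw [hE2, ← hs.tsum_add hbs]
  have hle : ∀ n, |inc A k n| * y ^ n ≤ inc A k n * y ^ n +
      (if n < n₀ + 1 then 2 * |inc A k n| else 0 : ℝ) := by
    intro n
    have hyn : 0 ≤ y ^ n := pow_nonneg hy0 n
    have hyn1 : y ^ n ≤ 1 := pow_le_one₀ hy0 hy1.le
    by_cases hn : n < n₀ + 1
    · rw [if_pos hn]
      have h6 : (|inc A k n| - inc A k n) * y ^ n ≤ (|inc A k n| - inc A k n) * 1 :=
        mul_le_mul_of_nonneg_left hyn1 (by linarith [le_abs_self (inc A k n)])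
      have h7 := neg_abs_le (inc A k n)
      linarith
    · rw [if_neg hn, add_zero, abs_of_nonneg (inc_nonneg hm (by omega))]
  exact Summable.tsum_le_tsum hle (summable_abs_inc A k hy0 hy1) (hs.add hbs)

theorem eventually_R1_pos {A : Set ℕ} (hA : A.Infinite) {k n₀ : ℕ} (hk : 1 ≤ k)
    (hm : ∀ n ≥ n₀, R1 A k n ≤ R1 A k (n + 1)) :
    ∃ n₂ : ℕ, ∀ n ≥ n₂, (1 : ℝ) ≤ (R1 A k n : ℝ) := by
  obtain ⟨a, ha, han⟩ := hA.exists_gt n₀
  refine ⟨k * a, fun n hn => ?_⟩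
  have h1 : n₀ ≤ k * a := by nlinarith
  have h2 := mono_of hm h1 hn
  have h3 := R1_pos ha k
  exact_mod_cast h3.trans h2

/-- The sum of the absolute values of the increments, homogeneous form. -/
theorem abs_sum' {A : Set ℕ} (hA : A.Infinite) {k n₀ : ℕ} (hk : 1 ≤ k)
    (hm : ∀ n ≥ n₀, R1 A k n ≤ R1 A k (n + 1)) :
    ∃ (C : ℝ) (n₂ : ℕ), 0 < C ∧ ∀ y : ℝ, 0 ≤ y → y < 1 → 1 / 2 ≤ y ^ n₂ →
      ∑' n, |inc A k n| * y ^ n ≤ C * ((1 - y) * gen A y ^ k) := by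
  obtain ⟨E, hE0, hE⟩ := abs_sum hm
  obtain ⟨n₂, hn₂⟩ := eventually_R1_pos hA hk hm
  refine ⟨1 + 2 * E, n₂, by linarith, fun y h0 h1 h2 => ?_⟩
  have h3 := gen_pow_ge A k hn₂ h0 h1
  rw [one_mul] at h3
  have h4 := hE y h0 h1
  have h5 : 1 ≤ 2 * ((1 - y) * gen A y ^ k) := by linarith
  have h6 := mul_le_mul_of_nonneg_left h5 hE0
  linarith

/-- A large increment at a scale of doubling. -/
theorem exists_big {A : Set ℕ} (hA : A.Infinite) {k : ℕ} (hk : 3 ≤ k)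
    (hmono : ∃ n₀, ∀ n ≥ n₀, R1 A k n ≤ R1 A k (n + 1)) :
    ∃ (c : ℝ) (n₂ : ℕ), 0 < c ∧ ∀ y : ℝ, 0 ≤ y → y < 1 → 1 / 2 ≤ y ^ 2 → 1 / 2 ≤ y ^ n₂ →
      ∀ B : ℝ, 0 < B → gen A y ≤ B * gen A (y ^ 2) → 0 < gen A (y ^ 2) →
      ∃ n, c / (B ^ k * ((1 - y) * (1 + Real.log (1 / (1 - y ^ 2))) ^ 2)) ≤
        |inc A k n| * y ^ n := by
  obtain ⟨n₀, hm⟩ := hmono
  obtain ⟨C, n₂, hC, hT⟩ := abs_sum' hA (by omega : 1 ≤ k) hm
  obtain ⟨c, hc, hS⟩ := sq_ge hk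
  refine ⟨c / (2 * C), n₂, by positivity, fun y h0 h1 h2 h3 B hB hgen hpos => ?_⟩
  by_contra hcon
  push Not at hcon
  have hy2 : y ^ 2 < 1 := pow_lt_one₀ h0 h1 two_ne_zero
  have hL1 : 1 ≤ 1 / (1 - y ^ 2) := by
    rw [le_div_iff₀ (by linarith)]
    linarith
  obtain ⟨L, hL⟩ : ∃ L : ℝ, L = 1 + Real.log (1 / (1 - y ^ 2)) := ⟨_, rfl⟩
  have hL0 : 1 ≤ L := by
    rw [hL]
    have := Real.log_nonneg hL1
    linarith
  rw [← hL] at hcon
  obtain ⟨μ, hμ⟩ : ∃ μ : ℝ, μ = c / (2 * C) / (B ^ k * ((1 - y) * L ^ 2)) := ⟨_, rfl⟩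
  have h1y : 0 < 1 - y := by linarith
  have hμ0 : 0 < μ := by rw [hμ]; positivity
  rw [← hμ] at hcon
  have hTy := hT y h0 h1 h3
  have hSy := hS A (y ^ 2) h2 hy2
  rw [← hL] at hSy
  have hsa := summable_abs_inc A k h0 h1
  -- the square sum is at most `μ T`
  have hle : ∀ n, (inc A k n) ^ 2 * (y ^ 2) ^ n ≤ μ * (|inc A k n| * y ^ n) := by
    intro n
    have h5 : (inc A k n) ^ 2 * (y ^ 2) ^ n = (|inc A k n| * y ^ n) * (|inc A k n| * y ^ n) := by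
      rw [← sq_abs, ← pow_mul, mul_comm 2 n, pow_mul]
      ring
    rw [h5]
    exact mul_le_mul_of_nonneg_right (hcon n).le (by positivity)
  have hss : Summable fun n => (inc A k n) ^ 2 * (y ^ 2) ^ n :=
    Summable.of_nonneg_of_le (fun n => by positivity) hle (hsa.mul_left μ)
  have h6 : ∑' n, (inc A k n) ^ 2 * (y ^ 2) ^ n ≤ μ * ∑' n, |inc A k n| * y ^ n := by
    rw [← tsum_mul_left]
    exact Summable.tsum_le_tsum hle hss (hsa.mul_left μ)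
  have h7 : gen A y ^ k ≤ B ^ k * gen A (y ^ 2) ^ k := by
    rw [← mul_pow]
    exact pow_le_pow_left₀ (gen_nonneg A h0) hgen k
  have h8 : ∑' n, |inc A k n| * y ^ n ≤ C * ((1 - y) * (B ^ k * gen A (y ^ 2) ^ k)) :=
    hTy.trans (mul_le_mul_of_nonneg_left (mul_le_mul_of_nonneg_left h7 h1y.le) hC.le)
  have h9 : c * gen A (y ^ 2) ^ k ≤
      μ * (C * ((1 - y) * (B ^ k * gen A (y ^ 2) ^ k))) * L ^ 2 :=
    hSy.trans (mul_le_mul_of_nonneg_right (h6.trans (mul_le_mul_of_nonneg_left h8 hμ0.le))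
      (by positivity))
  have h10 : μ * (C * ((1 - y) * (B ^ k * gen A (y ^ 2) ^ k))) * L ^ 2 =
      c / 2 * gen A (y ^ 2) ^ k := by
    rw [hμ]
    field_simp
  rw [h10] at h9
  have h11 : 0 < gen A (y ^ 2) ^ k := pow_pos hpos k
  have h12 : c / 2 * gen A (y ^ 2) ^ k < c * gen A (y ^ 2) ^ k :=
    mul_lt_mul_of_pos_right (by linarith) h11
  linarith

end Pool.Agent.H65.RC
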