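import Pool.Agent.H65.RC.Fib

/-!
# Recurrence at a large increment
-/

open Finset PowerSeries
open Pool.Agent.H99.Inc Pool.Agent.H99.Jump Pool.Agent.H65.CP

namespace Pool.Agent.H65.RC

theorem sum_inc (A : Set ℕ) (k j : ℕ) : ∑ m ∈ range (j + 1), inc A k m = (R1 A k j : ℝ) := by
  induction j with
  | zero => simp [inc_zero]
  | succ j ih =>
    rw [Finset.sum_range_succ, ih, inc_succ]
    ring

/-- The number of elements `a ≤ M` of `A` with `a + s ∈ A`. -/
noncomputable def nu (A : Set ℕ) (M s : ℕ) : ℝ := ∑ a ∈ AN A M, ind A (a + s)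

theorem nu_nonneg (A : Set ℕ) (M s : ℕ) : 0 ≤ nu A M s :=
  Finset.sum_nonneg fun _ _ => ind_nonneg A _

theorem sum_pos_part_le {A : Set ℕ} {k n₀ : ℕ} (hmono : ∀ n ≥ n₀, R1 A k n ≤ R1 A k (n + 1))
    (j : ℕ) : ∑ m ∈ range (j + 1), max (inc A k m) 0 ≤
      (R1 A k j : ℝ) + ∑ m ∈ range (n₀ + 1), 2 * |inc A k m| := by
  have h1 : ∀ m ∈ range (j + 1), max (inc A k m) 0 ≤
      inc A k m + if m ∈ range (n₀ + 1) then 2 * |inc A k m| else 0 := by
    intro m _
    by_cases hm : m ∈ range (n₀ + 1)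
    · rw [if_pos hm]
      refine max_le ?_ ?_
      · have := abs_nonneg (inc A k m)
        linarith
      · have := neg_abs_le (inc A k m)
        have := abs_nonneg (inc A k m)
        linarith
    · rw [if_neg hm, add_zero]
      rw [mem_range] at hm
      exact max_le le_rfl (inc_nonneg hmono (by omega))
  refine (Finset.sum_le_sum h1).trans ?_
  rw [Finset.sum_add_distrib, sum_inc, Finset.sum_ite_mem]
  have h2 : ∑ m ∈ range (j + 1) ∩ range (n₀ + 1), 2 * |inc A k m| ≤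
      ∑ m ∈ range (n₀ + 1), 2 * |inc A k m| :=
    Finset.sum_le_sum_of_subset_of_nonneg Finset.inter_subset_right fun _ _ _ => by positivity
  linarith

theorem recur {A : Set ℕ} {k n₀ : ℕ} (hk : 1 ≤ k)
    (hmono : ∀ n ≥ n₀, R1 A k n ≤ R1 A k (n + 1)) :
    ∃ C : ℝ, 0 ≤ C ∧ ∀ j M : ℕ, 2 * n₀ + 2 ≤ j → 2 * k * M ≤ j →
      ∃ s : ℕ, j ≤ 2 * (k + 1) * s ∧ s ≤ j ∧
        ((AN A M).card : ℝ) * inc A k j ≤ 4 * k * ((R1 A k j : ℝ) + C) * nu A M s := by
  refine ⟨∑ m ∈ range (n₀ + 1), 2 * |inc A k m|, by positivity, fun j M hj hM => ?_⟩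
  obtain ⟨I, hI⟩ : ∃ I : Finset ℕ, I = (range (j + 1)).filter (fun s => j ≤ 2 * (k + 1) * s) :=
    ⟨_, rfl⟩
  have hIne : I.Nonempty := by
    refine ⟨j, ?_⟩
    rw [hI, mem_filter, mem_range]
    refine ⟨by omega, ?_⟩
    nlinarith
  obtain ⟨s, hsI, hs⟩ := Finset.exists_max_image I (fun s => nu A M s) hIne
  have hsI' := hsI
  rw [hI, mem_filter, mem_range] at hsI'
  refine ⟨s, hsI'.2, by omega, ?_⟩
  have hk0 : (0 : ℝ) ≤ k := Nat.cast_nonneg _
  have h1 : ((AN A M).card : ℝ) * inc A k j ≤ ∑ a₀ ∈ AN A M, 4 * k * ∑ t ∈ range (j + 1),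
      (if j ≤ 2 * (k + 1) * t then ind A (a₀ + t) * max (inc A k (j - t)) 0 else 0) := by
    rw [← nsmul_eq_mul, ← Finset.sum_const]
    refine Finset.sum_le_sum fun a₀ ha₀ => ?_
    rw [mem_AN] at ha₀
    exact fibre hk hmono ha₀.2 ((Nat.mul_le_mul_left _ ha₀.1).trans hM) hj
  refine h1.trans ?_
  rw [← Finset.mul_sum, Finset.sum_comm]
  have h2 : ∑ t ∈ range (j + 1), ∑ a₀ ∈ AN A M,
      (if j ≤ 2 * (k + 1) * t then ind A (a₀ + t) * max (inc A k (j - t)) 0 else 0) ≤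
      nu A M s * ∑ t ∈ range (j + 1), max (inc A k (j - t)) 0 := by
    rw [Finset.mul_sum]
    refine Finset.sum_le_sum fun t ht => ?_
    have h3 : 0 ≤ max (inc A k (j - t)) 0 := le_max_right _ _
    by_cases hc : j ≤ 2 * (k + 1) * t
    · simp only [if_pos hc]
      rw [← Finset.sum_mul]
      refine mul_le_mul_of_nonneg_right ?_ h3
      refine hs t ?_
      rw [hI, mem_filter]
      exact ⟨ht, hc⟩
    · simp only [if_neg hc, Finset.sum_const_zero]
      exact mul_nonneg (nu_nonneg A M s) h3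
  have h4 : ∑ t ∈ range (j + 1), max (inc A k (j - t)) 0 = ∑ t ∈ range (j + 1), max (inc A k t) 0 := by
    have := Finset.sum_range_reflect (fun t => max (inc A k t) 0) (j + 1)
    rw [← this]
    refine Finset.sum_congr rfl fun t _ => ?_
    rw [show j + 1 - 1 - t = j - t by omega]
  rw [h4] at h2
  have h5 := mul_le_mul_of_nonneg_left (sum_pos_part_le hmono j) (nu_nonneg A M s)
  have h6 := mul_le_mul_of_nonneg_left (h2.trans h5) (by positivity : (0 : ℝ) ≤ 4 * k)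
  linarith

end Pool.Agent.H65.RC
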